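import Pool.Agent.PCO.StmtsE

/-!
# PCO squad, row E1A (first failure along the apex: the limits have the same `U`)
-/

set_option autoImplicit false

open Matrix Filter Topology

namespace Pool.Agent.PCO.H71

open Pool.Agent.PFS Pool.Agent.PFJ

theorem G_add {n : ℕ} (g : GL (Fin n) ℝ) (s : ℝ) (x y : V n) :
    s • act g (x + y) = s • act g x + s • act g y := by
  show s • ((g : Matrix (Fin n) (Fin n) ℝ) *ᵥ (x + y)) = _
  rw [Matrix.mulVec_add, smul_add]

theorem G_sub {n : ℕ} (g : GL (Fin n) ℝ) (s : ℝ) (x y : V n) :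
    s • act g (x - y) = s • act g x - s • act g y := by
  show s • ((g : Matrix (Fin n) (Fin n) ℝ) *ᵥ (x - y)) = _
  rw [Matrix.mulVec_sub, smul_sub]

theorem G_smul {n : ℕ} (g : GL (Fin n) ℝ) (s c : ℝ) (x : V n) :
    s • act g (c • x) = c • (s • act g x) := by
  show s • ((g : Matrix (Fin n) (Fin n) ℝ) *ᵥ (c • x)) = _
  rw [Matrix.mulVec_smul, smul_comm]

theorem e1a (bf1 : Bf1Stmt) : E1aStmt := by
  intro n C Γ d H U v Um vm f hb hd hLim hf hF
  obtain ⟨φ, k, g, s, ρ, U1, U2, f1, v1, v2, hφ, hk, hg, hs, hρ, b1, d1, b2, d2, hu1, t1, t2, t3,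
    L1, L2, hne, ⟨B, hB0, hB⟩, hT⟩ := hF
  have hCC : CC C Γ := H.toCC
  have hP : PCone C := hCC.toPCone
  obtain ⟨_, hv1, _, _, _, hC1, _⟩ := bf1 n C Γ hCC H.maxc U1 v1 b1
  have hUnf := Pool.Agent.PFJ.H76.unf n C hP U1 f1 hu1
  -- the claim
  have key : U1 ≤ U2 := by
    intro y hy
    obtain ⟨z, hz, hzt⟩ := L1.1 y hy
    choose x hxU hxz using fun m => (mem_img.1 (hz m))
    obtain ⟨w, hwU, hGw⟩ : ∃ w : ℕ → V n, (∀ m, w m ∈ U) ∧
        ∀ m, s m • act (g m) (w m) = z m := by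
      refine ⟨fun m => (s m)⁻¹ • x m, fun m => U.smul_mem _ (hxU m), fun m => ?_⟩
      rw [G_smul, hxz m, smul_smul, inv_mul_cancel₀ (hs m).ne', one_smul]
    obtain ⟨ε, hε, hu2⟩ := hUnf.2.2.2.1 y hy
    obtain ⟨δ, hδ, hu3⟩ := hUnf.2.2.2.1 (-y) (U1.neg_mem hy)
    have hc2 : f1 - ε • y + (1 : ℝ) • v1 ∈ C := (hC1 _ hu2.1 1).2 ⟨hu2, one_pos⟩
    have hc3 : f1 - δ • (-y) + (1 : ℝ) • v1 ∈ C := (hC1 _ hu3.1 1).2 ⟨hu3, one_pos⟩
    -- convergence
    have conv : ∀ c : ℝ, Tendsto (fun m => s m • act (g m)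
        (f + (2 : ℝ) ^ (k m) • (0 : V n) - c • w m + (1 + (2 : ℝ) ^ (k m) * 1) • v)) atTop
        (𝓝 (f1 - c • y + v1)) := by
      intro c
      have h := (t1.sub (hzt.const_smul c)).add t2
      refine h.congr fun m => ?_
      rw [G_add (g m) (s m) (f + (2 : ℝ) ^ (k m) • (0 : V n) - c • w m),
        G_sub (g m) (s m) (f + (2 : ℝ) ^ (k m) • (0 : V n)), G_smul _ _ c, hGw m]
    have ev : ∀ c : ℝ, f1 - c • y + (1 : ℝ) • v1 ∈ C →
        ∀ᶠ m in atTop, f - c • w m ∈ closure C := by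
      intro c hc
      rw [one_smul] at hc
      filter_upwards [(conv c).eventually (hP.isOpen.mem_nhds hc)] with m hm
      have h1 := (hCC.sact_mem_iff (hg m) (hs m)).1 hm
      rw [smul_zero, add_zero] at h1
      exact (hb.comp _ (U.sub_mem hf.1 (U.smul_mem _ (hwU m))) _ (subset_closure h1)).1
    obtain ⟨Bn, hBn, hnorm⟩ := hP.normal
    have hbd : ∀ᶠ m in atTop, w m ∈ Metric.closedBall (0 : V n)
        (δ⁻¹ * (Bn * ‖(1 + δ / ε) • f‖ + ‖f‖)) := by
      have e3 : f1 - (-δ) • y + (1 : ℝ) • v1 ∈ C := by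
        rw [smul_neg] at hc3
        rw [neg_smul]
        exact hc3
      filter_upwards [ev ε hc2, ev (-δ) e3] with m h2 h3
      have h4 : (1 + δ / ε) • f - (f - (-δ) • w m) ∈ closure C := by
        have h5 : (1 + δ / ε) • f - (f - (-δ) • w m) = (δ / ε) • (f - ε • w m) := by
          rw [smul_sub, smul_smul, div_mul_cancel₀ _ hε.ne', neg_smul, add_smul, one_smul]
          abel
        rw [h5]
        exact hP.cl_smul_pos h2 (div_pos hδ hε)
      have h6 := hnorm _ _ h3 h4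
      rw [mem_closedBall_zero_iff]
      have h7 : w m = δ⁻¹ • ((f - (-δ) • w m) - f) := by
        rw [sub_sub_cancel_left, neg_smul, neg_neg, smul_smul, inv_mul_cancel₀ hδ.ne', one_smul]
      rw [h7, norm_smul, Real.norm_of_nonneg (inv_pos.2 hδ).le]
      refine mul_le_mul_of_nonneg_left ?_ (inv_pos.2 hδ).le
      calc ‖(f - (-δ) • w m) - f‖ ≤ ‖f - (-δ) • w m‖ + ‖f‖ := norm_sub_le _ _
        _ ≤ Bn * ‖(1 + δ / ε) • f‖ + ‖f‖ := by linarith
    obtain ⟨y0, -, ψ, hψ, hψt⟩ := tendsto_subseq_of_frequently_bounded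
      (Metric.isBounded_closedBall) hbd.frequently
    have hy0 : y0 ∈ U :=
      (Submodule.closed_of_finiteDimensional U).mem_of_tendsto hψt
        (Eventually.of_forall fun m => hwU _)
    obtain ⟨y', hy', hy't⟩ := hLim.1 y0 hy0
    have hsub : Tendsto (fun m => y' (φ (ψ m))) atTop (𝓝 y0) :=
      hy't.comp (hφ.comp hψ).tendsto_atTop
    have hdiff : Tendsto (fun m => s (ψ m) • act (g (ψ m)) (y' (φ (ψ m)) - w (ψ m))) atTop
        (𝓝 0) := by
      have h1 : Tendsto (fun m => B * ‖y' (φ (ψ m)) - w (ψ m)‖) atTop (𝓝 0) := by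
        have := ((hsub.sub hψt).norm).const_mul B
        simpa using this
      exact squeeze_zero_norm (fun m => hB _ _) h1
    have hfin : Tendsto (fun m => s (ψ m) • act (g (ψ m)) (y' (φ (ψ m)))) atTop (𝓝 y) := by
      have h1 := hdiff.add (hzt.comp hψ.tendsto_atTop)
      rw [zero_add] at h1
      refine h1.congr fun m => ?_
      simp only [Function.comp_apply]
      rw [← hGw (ψ m), G_sub, sub_add_cancel]
    refine L2.2 ψ _ y hψ (fun m => ?_) hfin
    refine mem_img.2 ⟨s (ψ m) • y' (φ (ψ m)), (Um _).smul_mem _ (hy' _), ?_⟩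
    show (g (ψ m) : Matrix (Fin n) (Fin n) ℝ) *ᵥ (s (ψ m) • y' (φ (ψ m))) = _
    rw [Matrix.mulVec_smul]
  have hU : U1 = U2 := Submodule.eq_of_le_of_finrank_eq key (d1.trans d2.symm)
  subst hU
  exact ⟨U1, v1, v2, b1, b2, d1, hne⟩

end Pool.Agent.PCO.H71
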