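import Pool.Agent.PCO.StmtsB

/-!
# PCO squad, row PVA (the projections of all apexes are multiples of `a`)
-/

set_option autoImplicit false

open Matrix Filter Topology

namespace Pool.Agent.PCO.H71

open Pool.Agent.PFS Pool.Agent.PFJ

theorem pva (bf1 : Bf1Stmt) (bf2 : Bf2Stmt) (bf3 : Bf3Stmt) (smf : SmfStmt) (bxm : BxmStmt)
    (bxw : BxwStmt) (wbf : WbfStmt) (prf : PrfStmt) (tza : TzaStmt) (spf : SpfStmt) : PvaStmt := by
  intro n C Γ d H U v v' a ρ S w p hw hp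
  have hCC : CC C Γ := H.toCC
  have hP : PCone C := hCC.toPCone
  have hM := H.maxc
  have ha := S.bd
  by_contra hne
  push Not at hne
  -- `x = p w`
  obtain ⟨_, hwcl, _, hwU, _⟩ := bf1 n C Γ hCC hM U w hw
  have hxU : p w ∈ U := hp.mem w
  have hxcl : p w ∈ closure C := hp.pos w hwcl
  have ha0 : a ≠ 0 := ha.2.2.1
  have hax : Ind2 a (p w) := by
    intro α β h
    by_cases hβ : β = 0
    · rw [hβ, zero_smul, add_zero] at h
      exact ⟨(smul_eq_zero.1 h).resolve_right ha0, hβ⟩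
    · exfalso
      apply hne (-(β⁻¹ * α))
      have h1 : β • p w = -(α • a) := by
        rw [add_comm] at h
        exact eq_neg_of_add_eq_zero_left h
      calc p w = β⁻¹ • (β • p w) := by rw [smul_smul, inv_mul_cancel₀ hβ, one_smul]
        _ = -(β⁻¹ * α) • a := by rw [h1, smul_neg, smul_smul, neg_smul]
  obtain ⟨c, hc, hca⟩ := (bf2 n C Γ hCC hM U v S.box).2.2.2.1 a 0
  have hac : Ind2 a c := by
    intro α β h
    by_cases hβ : β = 0
    · rw [hβ, zero_smul, add_zero] at h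
      exact ⟨(smul_eq_zero.1 h).resolve_right ha0, hβ⟩
    · exfalso
      apply hca (-(β⁻¹ * α)) 0
      have h1 : β • c = -(α • a) := by
        rw [add_comm] at h
        exact eq_neg_of_add_eq_zero_left h
      calc c = β⁻¹ • (β • c) := by rw [smul_smul, inv_mul_cancel₀ hβ, one_smul]
        _ = -(β⁻¹ * α) • a + (0 : ℝ) • 0 := by
          rw [h1, smul_neg, smul_smul, neg_smul, smul_zero, add_zero]
  obtain ⟨T, U', bv, bw, hd', hTc, hTa, hTpos, hTs, hTU, hTq⟩ :=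
    tza n C Γ d H U v w a c S.box hw S.dim ha hc hac
  -- facts on the special pair
  obtain ⟨⟨M, hM0, hMle⟩, _, ⟨hind, hpz⟩, _⟩ := spf n C Γ d H U v v' a ρ S
  obtain ⟨_, hv'cl, _⟩ := bf1 n C Γ hCC hM U v' S.box'
  obtain ⟨r, hr⟩ := hTq v' hv'cl M hMle
  obtain ⟨hpv, _, _, hdec, _⟩ := prf n C Γ d H U v S.box S.dim p hp
  obtain ⟨s, t, hst⟩ := hdec v (v' - ρ • a) hpv (hpz p hp) hind w
  obtain ⟨τ, hτ⟩ := hTU (p w) hxU
  have hTw : T w = τ • T c + (s + t * r) • T v := by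
    have h1 : T w = T (p w) + s • T v + t • (T v' - ρ • T a) := by
      conv_lhs => rw [hst]
      rw [map_add, map_add, map_smul, map_smul, map_sub, map_smul]
    rw [h1, hr, hTa, hτ, smul_zero, sub_zero, smul_smul, add_smul]
    abel
  have hTx : T (p w) ≠ 0 := by
    intro h0
    have h1 := hTs _ h0
    obtain ⟨h3a, _, _, h3d, _⟩ := bf3 n C Γ hCC hM U v S.box
    obtain ⟨ψ, hψ, hψpos, _⟩ := h3a a ha
    have h2 : ψ (p w) = 0 :=
      (smf n C hP a ha.2.1).2.2.1 ψ hψpos hψ.at_ _ h1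
    have h3 := h3d a ψ ha hψ (p w) hxU hxcl hax
    rw [h2] at h3
    exact lt_irrefl _ h3
  -- `T w` in the subspace of the box `(U', T v)`
  have hmem : T w ∈ Wb U' (T v) :=
    ((wbf n).1 U' (T v) (T w)).2 ⟨τ • T c, U'.smul_mem _ hTc.1, _, hTw⟩
  obtain ⟨_, hTwcl, hTw0, hTwU, _⟩ := bf1 n C Γ hCC hM U' (T w) bw
  obtain ⟨_, _, _, hTvU, _⟩ := bf1 n C Γ hCC hM U' (T v) bv
  have hext : PFJ.Ext C (T w) := (bxm n C Γ d H U' (T w) bw hd').2.2.2.2.1
  rcases bxw n C Γ hCC hM U' (T v) bv (T w) hmem hTwcl hext hTw0 with h | ⟨b, _, hb⟩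
  · exact hTwU h
  · have h1 : (b - (s + t * r)) • T v = τ • T c := by
      rw [sub_smul, ← hb, hTw]
      abel
    by_cases hz : b - (s + t * r) = 0
    · rw [hz, zero_smul] at h1
      exact hTx (by rw [hτ, ← h1])
    · apply hTvU
      have h2 : T v = (b - (s + t * r))⁻¹ • (τ • T c) := by
        rw [← h1, smul_smul, inv_mul_cancel₀ hz, one_smul]
      rw [h2]
      exact U'.smul_mem _ (U'.smul_mem _ hTc.1)

end Pool.Agent.PCO.H71
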